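import Pool.Agent.W243.TD.Stm

set_option autoImplicit false

namespace Pool.Agent.W154.TD

open Polynomial Finset Module
open Pool.Agent.W243.TD

theorem arith (l r d g0 gG f0 d1 v' r' : ℕ) (hrd : r < d)
    (h1 : v' + f0 ≤ r) (h2 : (l - g0) * (d - r) ≤ f0 * d + d1 * r)
    (h3 : g0 + r' ≤ gG + v') (h4 : r' + d1 ≤ d) (h5 : r' ≤ v') (h6 : r' < r) :
    l + 2 * (r' * (r' + 1)) ≤ gG + 2 * (r * (r + 1)) := by
  obtain ⟨c, rfl⟩ : ∃ c, d = r + c := ⟨d - r, by omega⟩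
  obtain ⟨δ, rfl⟩ : ∃ δ, r = r' + δ := ⟨r - r', by omega⟩
  have hc : 1 ≤ c := by omega
  have hδ : 1 ≤ δ := by omega
  have e : r' + δ + c - (r' + δ) = c := by omega
  rw [e] at h2
  obtain ⟨x, hx⟩ : ∃ x, x = l - g0 := ⟨_, rfl⟩
  rw [← hx] at h2
  have hl : l ≤ x + g0 := by omega
  have hd1 : d1 ≤ c + δ := by omega
  have hf0 : f0 ≤ δ := by omega
  have hg : g0 + f0 ≤ gG + δ := by omega
  by_contra hcon
  push Not at hcon
  -- x is large
  have hx1 : 2 * (δ * (2 * r' + δ + 1)) + 1 + f0 ≤ x + δ := by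
    have e1 : 2 * ((r' + δ) * (r' + δ + 1)) = 2 * (r' * (r' + 1)) + 2 * (δ * (2 * r' + δ + 1)) := by
      ring
    omega
  have hx2 : f0 * (r' + δ + c) + d1 * (r' + δ) ≤
      f0 * c + δ * (r' + δ) + (c + δ) * (r' + δ) := by
    have a1 : f0 * (r' + δ) ≤ δ * (r' + δ) := Nat.mul_le_mul_right _ hf0
    have a2 : d1 * (r' + δ) ≤ (c + δ) * (r' + δ) := Nat.mul_le_mul_right _ hd1
    nlinarith
  have hx3 : x * c ≤ f0 * c + δ * (r' + δ) + (c + δ) * (r' + δ) := le_trans h2 hx2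
  have hx4 : (2 * (δ * (2 * r' + δ + 1)) + 1 + f0) * c ≤ (x + δ) * c :=
    Nat.mul_le_mul_right _ hx1
  -- integers
  zify at hx3 hx4 hc hδ
  have hr' : (0 : ℤ) ≤ r' := by positivity
  have hf : (0 : ℤ) ≤ f0 := by positivity
  have k1 : (2 * ((δ : ℤ) * (2 * r' + δ + 1)) + 1 - δ - (r' + δ)) * c ≤ 2 * (δ * (r' + δ)) := by
    nlinarith
  have k2 : (2 * ((δ : ℤ) * (r' + δ)) + 1 : ℤ) ≤
      2 * ((δ : ℤ) * (2 * r' + δ + 1)) + 1 - δ - (r' + δ) := by
    nlinarith [mul_nonneg hr' (sub_nonneg.2 hδ)]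
  have k3 : (2 * ((δ : ℤ) * (r' + δ)) + 1 : ℤ) * 1 ≤
      (2 * ((δ : ℤ) * (2 * r' + δ + 1)) + 1 - δ - (r' + δ)) * c := by
    apply mul_le_mul k2 hc (by norm_num)
    have : (0 : ℤ) ≤ δ * (r' + δ) := by positivity
    linarith
  linarith

theorem step2 : S_ineq0 → S_g0 → S_step2 := by
  intro hI hG L hL θ hθ K hK d l r V z hr hr0 hrd hrat hz he
  obtain ⟨V', Rm, G0, f0, hV', hf0, hne, hG0, hin⟩ := hI θ L hθ hL K hK d l r V z hr hrd hz he
  have hP : (2 * Real.pi * Complex.I) / L ≠ 0 :=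
    div_ne_zero Complex.two_pi_I_ne_zero hL
  obtain ⟨V'', G, hV'', hGG, hGm, hfr, hfr2⟩ := hG K ((2 * Real.pi * Complex.I) / L) hP d l V' Rm G0 z
    (by
      intro s hs
      refine ⟨(hG0 s hs).1, fun m hm => ?_⟩
      obtain ⟨n, hn⟩ := (hG0 s hs).2 m hm
      refine ⟨n, ?_⟩
      rw [← mul_div_assoc, eq_div_iff hL, mul_comm]
      exact hn)
  have hle : V'' ≤ V' := fun v hv => ((hV'' v).1 hv).1
  have h5 : finrank K V'' ≤ finrank K V' := Submodule.finrank_mono hle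
  have h6 : finrank K V'' < r := by
    rcases hne with h | h
    · omega
    · by_contra hcon
      push Not at hcon
      have hVV : V'' = V := by
        apply Submodule.eq_of_le_of_finrank_le (hle.trans hV')
        rw [hr]; exact hcon
      obtain ⟨a, ha⟩ := AddSubgroup.ne_bot_iff_exists_ne_zero.1 h
      obtain ⟨m, hm⟩ := a
      have hm0 : m ≠ 0 := fun h0 => ha (Subtype.ext h0)
      apply hm0
      have hc := hrat (fun i => (m i : ℚ)) (by
        intro v hv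
        rw [← hVV] at hv
        have := ((hV'' v).1 hv).2 m hm
        rw [← this]
        apply Finset.sum_congr rfl
        intro i _
        congr 1)
      funext i
      have hi := congrFun hc i
      simp only [Pi.zero_apply, Int.cast_eq_zero] at hi
      exact hi
  refine ⟨V'', G, hle.trans hV', h6, hGm, ?_⟩
  exact arith l r d (finrank ℤ G0) (finrank ℤ G) f0 (finrank ℤ Rm) (finrank K V') (finrank K V'')
    hrd hf0 hin hfr hfr2 h5 h6

end Pool.Agent.W154.TD
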